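import Pool.Agent.Lib.Helper20.RecInv.Reiterative
import Pool.Agent.Lib.Helper20.RecInv.Star
import Pool.Agent.Lib.Helper20.RecInv.Frequent
import Pool.Agent.Lib.Helper20.RecInv.UFinal

/-!
# Recurrence properties of the inverse of an invertible operator

We settle, for each of the six recurrence notions of the problem, whether the inverse of an
invertible recurrent operator on a Fréchet space is recurrent in the same sense:

* reiterative recurrence: yes;
* uniform recurrence: yes;
* `IP*`-recurrence: yes;
* `Δ*`-recurrence: yes;
* frequent recurrence: no, not even on Banach spaces;
* `𝒰`-frequent recurrence: no, not even on Banach spaces.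

The positive answers need no local convexity: they hold on every topological vector space whose
topology is induced by a complete metric; this includes all Fréchet spaces. The negative answers
are given by an operator on a real, respectively complex, Banach space.

An invertible operator on `X` is a continuous linear equivalence `T : X ≃L[𝕜] X` (on a Fréchet
space this is the same as a bijective continuous linear map, by the open mapping theorem).
-/

namespace Pool.Agent.Results.MP_3e9a14_an.InverseRecurrence

open Pool.Agent.Lib.Helper20.RecInv TopologicalSpace Topology

theorem positive {X : Type*} [TopologicalSpace X] [IsCompletelyMetrizableSpace X]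
    (P : RecurrenceNotion) (hP : P ≠ .frequent) (hP' : P ≠ .uFrequent) (T : X ≃ₜ X)
    (h : IsRecurrentMap P T) : IsRecurrentMap P T.symm := by
  cases P with
  | frequent => exact absurd rfl hP
  | uFrequent => exact absurd rfl hP'
  | uniform => exact h.mono fun x hx => uniform_symm T x hx
  | ipStar => exact h.mono fun x hx => ipStar_symm T x hx
  | deltaStar => exact h.mono fun x hx => deltaStar_symm T x hx
  | reiterative =>
    intro x
    have h1 : closure {x : X | IsRecurrentVector .reiterative T x} ⊆
        closure {x : X | IsRecurrentVector .reiterative T.symm x} :=
      closure_minimal (fun y hy => reiterative_symm T y hy) isClosed_closure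
    exact h1 (h x)

/-- **Full answer, for all six recurrence notions.**
(1) If `P` is one of the notions reiterative, uniform, `IP*` or `Δ*` recurrence, then for every
invertible operator `T` with the property `P` on a real or complex topological vector space `X`
whose topology is completely metrizable (in particular on every Fréchet space), the inverse
`T⁻¹` has the property `P`.
(2) If `P` is frequent or `𝒰`-frequent recurrence, then, over the real and over the complex
numbers, there are a Banach space `X` and an invertible operator `T` on `X` which has the
property `P` but whose inverse does not have the property `P`. -/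
theorem result :
    (∀ P : RecurrenceNotion, P ≠ .frequent → P ≠ .uFrequent →
      ∀ (𝕜 : Type) [RCLike 𝕜] (X : Type*) [AddCommGroup X] [Module 𝕜 X] [TopologicalSpace X]
        [IsTopologicalAddGroup X] [ContinuousSMul 𝕜 X] [IsCompletelyMetrizableSpace X]
        (T : X ≃L[𝕜] X), IsRecurrentMap P T → IsRecurrentMap P T.symm) ∧
    (∀ P : RecurrenceNotion, P = .frequent ∨ P = .uFrequent →
      ∀ (𝕜 : Type) [RCLike 𝕜], ∃ (X : Type) (_ : NormedAddCommGroup X) (_ : NormedSpace 𝕜 X)
        (_ : CompleteSpace X) (T : X ≃L[𝕜] X),
        IsRecurrentMap P T ∧ ¬ IsRecurrentMap P T.symm) := by
  constructor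
  · intro P hP hP' 𝕜 _ X _ _ _ _ _ _ T h
    exact positive P hP hP' T.toHomeomorph h
  · rintro P (rfl | rfl) 𝕜 _
    · exact ⟨orbClosure 𝕜 Freq.A, inferInstance, inferInstance,
        (Submodule.isClosed_topologicalClosure _).completeSpace_coe, opT 𝕜 Freq.A,
        Freq.frequent_opT 𝕜, Freq.not_frequent_symm 𝕜⟩
    · exact ⟨orbClosure 𝕜 UFreq.A, inferInstance, inferInstance,
        (Submodule.isClosed_topologicalClosure _).completeSpace_coe, opT 𝕜 UFreq.A,
        UFreq.uFrequent_opT 𝕜, UFreq.not_uFrequent_symm 𝕜⟩

end Pool.Agent.Results.MP_3e9a14_an.InverseRecurrence
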